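import Pool.Agent.Lib.MP_257afc_co.ZO.Base

/-!
# Module COMB of project ZO (MP_257afc_co)

The combinatorial lemma (4.4): free sets, constant positions and an explicit placement.
-/

set_option autoImplicit false
set_option linter.all false

namespace Pool.Agent.Lib.MP_257afc_co.ZO.H47

/-! ### Enumerations -/

lemma exists_enum (Y : Finset ℕ) : ∃ y : ℕ → ℕ, (∀ i, i < Y.card → y i ∈ Y) ∧
    ∀ i i', i < i' → i' < Y.card → y i < y i' := by
  classical
  refine ⟨fun i => if h : i < Y.card then Y.orderEmbOfFin rfl ⟨i, h⟩ else 0, ?_, ?_⟩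
  · intro i hi
    simp only [hi, dif_pos]
    exact Finset.orderEmbOfFin_mem Y rfl _
  · intro i i' h h'
    have h1 : i < Y.card := lt_trans h h'
    simp only [h1, h', dif_pos]
    exact (Y.orderEmbOfFin rfl).strictMono h

lemma img_inj (K : ℕ) (f : ℕ → ℕ) (hf : ∀ p p', p < p' → p' < K → f p < f p') :
    Set.InjOn f (Finset.range K) := by
  intro p hp p' hp' h
  have hp1 : p < K := Finset.mem_range.1 hp
  have hp2 : p' < K := Finset.mem_range.1 hp'
  rcases lt_trichotomy p p' with h1 | h1 | h1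
  · have := hf _ _ h1 hp2
    omega
  · exact h1
  · have := hf _ _ h1 hp1
    omega

lemma img_card (K : ℕ) (f : ℕ → ℕ) (hf : ∀ p p', p < p' → p' < K → f p < f p') :
    ((Finset.range K).image f).card = K := by
  rw [Finset.card_image_of_injOn (img_inj K f hf), Finset.card_range]

lemma img_emb (K : ℕ) (f : ℕ → ℕ) (hf : ∀ p p', p < p' → p' < K → f p < f p')
    (h : ((Finset.range K).image f).card = K) (p : Fin K) :
    ((Finset.range K).image f).orderEmbOfFin h p = f p := by
  have h1 := Finset.orderEmbOfFin_unique h (f := fun p : Fin K => f p)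
    (fun x => Finset.mem_image_of_mem f (Finset.mem_range.2 x.2))
    (fun a b hab => hf _ _ hab b.2)
  exact (congrFun h1 p).symm

/-! ### Colourings -/

/-- colouring for the free set -/
def col1 (K : ℕ) (V : Finset ℕ → Finset ℕ) (G : Finset ℕ) : Fin (K + 1) → Prop :=
  fun p => ∃ h : G.card = K + 1, G.orderEmbOfFin h p ∈ V (G.erase (G.orderEmbOfFin h p))

/-- position of the marked element -/
def col2 (K : ℕ) (iF : Finset ℕ → ℕ) (G : Finset ℕ) : Fin K → Prop :=
  fun p => ∃ h : G.card = K, G.orderEmbOfFin h p = iF G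

/-- positions of the marked set -/
def col3 (K : ℕ) (AF : Finset ℕ → Finset ℕ) (G : Finset ℕ) : Fin K → Prop :=
  fun p => ∃ h : G.card = K, G.orderEmbOfFin h p ∈ AF G

lemma free_set (K c : ℕ) (V : Finset ℕ → Finset ℕ) (Y : Finset ℕ) (hY : K + c < Y.card)
    (hV : ∀ F, F ⊆ Y → F.card = K → (V F).card ≤ c)
    (hcol : ∀ G G', G ⊆ Y → G' ⊆ Y → G.card = G'.card → col1 K V G = col1 K V G') :
    ∀ F, F ⊆ Y → F.card = K → ∀ x ∈ V F, x ∈ Y → x ∈ F := by
  classical
  intro F hF hFc x hx hxY
  by_contra hxF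
  obtain ⟨y, hy1, hy2⟩ := exists_enum Y
  have hGY : insert x F ⊆ Y := Finset.insert_subset hxY hF
  have hGc : (insert x F).card = K + 1 := by rw [Finset.card_insert_of_notMem hxF, hFc]
  have hxr : x ∈ Set.range ((insert x F).orderEmbOfFin hGc) := by
    rw [Finset.range_orderEmbOfFin]
    exact Finset.mem_coe.2 (Finset.mem_insert_self x F)
  obtain ⟨p, hp⟩ := hxr
  have hcp : col1 K V (insert x F) p := by
    refine ⟨hGc, ?_⟩
    rw [hp, Finset.erase_insert hxF]
    exact hx
  have hpK : (p : ℕ) < K + 1 := p.2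
  -- the sets `G_t`
  have key : ∀ t, t ≤ c → y (p + t) ∈ V (((Finset.range (K + 1)).erase p).image
      (fun q : ℕ => y (if q < (p : ℕ) then q else q + c))) := by
    intro t ht
    set f : ℕ → ℕ := fun q => y (if q < (p : ℕ) then q else if q = p then p + t else q + c) with hf
    have hfm : ∀ q q', q < q' → q' < K + 1 → f q < f q' := by
      intro q q' h1 h2
      simp only [hf]
      apply hy2
      · split_ifs <;> omega
      · split_ifs <;> omega
    have hfY : (Finset.range (K + 1)).image f ⊆ Y := by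
      intro z hz
      obtain ⟨q, hq, rfl⟩ := Finset.mem_image.1 hz
      have hq1 := Finset.mem_range.1 hq
      apply hy1
      split_ifs <;> omega
    have hc1 : col1 K V ((Finset.range (K + 1)).image f) p := by
      rw [hcol _ (insert x F) hfY hGY (by rw [img_card _ f hfm, hGc])]
      exact hcp
    obtain ⟨h1, h2⟩ := hc1
    rw [img_emb _ f hfm h1 p] at h2
    have hfp : f p = y (p + t) := by simp [hf]
    rw [hfp] at h2
    have h3 : ((Finset.range (K + 1)).image f).erase (y (p + t)) =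
        ((Finset.range (K + 1)).erase p).image (fun q : ℕ => y (if q < (p : ℕ) then q else q + c)) := by
      ext z
      simp only [Finset.mem_erase, Finset.mem_image, Finset.mem_range]
      constructor
      · rintro ⟨hz, q, hq, rfl⟩
        have hqp : q ≠ p := by
          rintro rfl
          exact hz hfp
        refine ⟨q, ⟨hqp, hq⟩, ?_⟩
        simp [hf, hqp]
      · rintro ⟨q, ⟨hqp, hq⟩, rfl⟩
        have e1 : f q = y (if q < (p : ℕ) then q else q + c) := by simp [hf, hqp]
        refine ⟨?_, q, hq, e1⟩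
        rw [← e1, ← hfp]
        intro h4
        apply hqp
        exact img_inj _ f hfm (Finset.mem_coe.2 (Finset.mem_range.2 hq))
          (Finset.mem_coe.2 (Finset.mem_range.2 hpK)) h4
    rw [h3] at h2
    exact h2
  set F0 := ((Finset.range (K + 1)).erase p).image
      (fun q : ℕ => y (if q < (p : ℕ) then q else q + c)) with hF0
  have hm : ∀ q q', q < q' → q' < K + 1 →
      y (if q < (p : ℕ) then q else q + c) < y (if q' < (p : ℕ) then q' else q' + c) := by
    intro q q' h1 h2
    apply hy2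
    · split_ifs <;> omega
    · split_ifs <;> omega
  have hF0Y : F0 ⊆ Y := by
    intro z hz
    obtain ⟨q, hq, rfl⟩ := Finset.mem_image.1 hz
    have hq1 := Finset.mem_range.1 (Finset.mem_of_mem_erase hq)
    apply hy1
    split_ifs <;> omega
  have hF0c : F0.card = K := by
    rw [hF0, Finset.card_image_of_injOn, Finset.card_erase_of_mem (Finset.mem_range.2 hpK),
      Finset.card_range]
    · rfl
    · intro q hq q' hq' h
      exact img_inj _ _ hm (Finset.mem_coe.2 (Finset.mem_of_mem_erase (Finset.mem_coe.1 hq)))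
        (Finset.mem_coe.2 (Finset.mem_of_mem_erase (Finset.mem_coe.1 hq'))) h
  have h5 : (Finset.range (c + 1)).image (fun t => y (p + t)) ⊆ V F0 := by
    intro z hz
    obtain ⟨t, ht, rfl⟩ := Finset.mem_image.1 hz
    exact key t (Nat.lt_succ_iff.1 (Finset.mem_range.1 ht))
  have h6 := Finset.card_le_card h5
  rw [img_card (c + 1) (fun t => y (p + t)) (fun t t' h1 h2 => hy2 _ _ (by omega) (by omega))]
    at h6
  have h7 := hV F0 hF0Y hF0c
  omega

lemma positions (K m : ℕ) (iF : Finset ℕ → ℕ) (AF : Finset ℕ → Finset ℕ) (Y : Finset ℕ)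
    (hK : K ≤ Y.card)
    (h : ∀ F, F ⊆ Y → F.card = K → iF F ∈ F ∧ AF F ⊆ F ∧ iF F ∉ AF F ∧ (AF F).card = m)
    (hcol2 : ∀ G G', G ⊆ Y → G' ⊆ Y → G.card = G'.card → col2 K iF G = col2 K iF G')
    (hcol3 : ∀ G G', G ⊆ Y → G' ⊆ Y → G.card = G'.card → col3 K AF G = col3 K AF G') :
    ∃ (al : ℕ) (B : Finset ℕ), al < K ∧ al ∉ B ∧ (∀ p ∈ B, p < K) ∧ B.card = m ∧
      ∀ f : ℕ → ℕ, (∀ p p', p < p' → p' < K → f p < f p') → (∀ p, p < K → f p ∈ Y) →
        iF ((Finset.range K).image f) = f al ∧ AF ((Finset.range K).image f) = B.image f := by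
  classical
  obtain ⟨y, hy1, hy2⟩ := exists_enum Y
  have hym : ∀ p p', p < p' → p' < K → y p < y p' := fun p p' h1 h2 => hy2 p p' h1 (by omega)
  have hyY : (Finset.range K).image y ⊆ Y := by
    intro z hz
    obtain ⟨q, hq, rfl⟩ := Finset.mem_image.1 hz
    have := Finset.mem_range.1 hq
    exact hy1 q (by omega)
  have hyc := img_card K y hym
  obtain ⟨h1, h2, h3, h4⟩ := h _ hyY hyc
  obtain ⟨al, hal, hal2⟩ := Finset.mem_image.1 h1
  have halK : al < K := Finset.mem_range.1 hal
  have hBi : ((Finset.range K).filter (fun p => y p ∈ AF ((Finset.range K).image y))).image y =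
      AF ((Finset.range K).image y) := by
    ext z
    simp only [Finset.mem_image, Finset.mem_filter, Finset.mem_range]
    constructor
    · rintro ⟨p, ⟨_, hp⟩, rfl⟩
      exact hp
    · intro hz
      obtain ⟨q, hq, rfl⟩ := Finset.mem_image.1 (h2 hz)
      exact ⟨q, ⟨Finset.mem_range.1 hq, hz⟩, rfl⟩
  refine ⟨al, (Finset.range K).filter (fun p => y p ∈ AF ((Finset.range K).image y)), halK,
    ?_, ?_, ?_, ?_⟩
  · intro hmem
    apply h3
    rw [← hal2]
    exact (Finset.mem_filter.1 hmem).2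
  · intro p hp
    exact Finset.mem_range.1 (Finset.mem_filter.1 hp).1
  · rw [← h4]
    conv_rhs => rw [← hBi]
    rw [Finset.card_image_of_injOn]
    intro q hq q' hq' h
    exact img_inj K y hym (Finset.mem_coe.2 (Finset.mem_filter.1 (Finset.mem_coe.1 hq)).1)
      (Finset.mem_coe.2 (Finset.mem_filter.1 (Finset.mem_coe.1 hq')).1) h
  · intro f hf hfY
    have hfI : (Finset.range K).image f ⊆ Y := by
      intro z hz
      obtain ⟨q, hq, rfl⟩ := Finset.mem_image.1 hz
      exact hfY q (Finset.mem_range.1 hq)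
    have hfc := img_card K f hf
    have e2 := hcol2 _ _ hfI hyY (by rw [hfc, hyc])
    have e3 := hcol3 _ _ hfI hyY (by rw [hfc, hyc])
    constructor
    · have h5 : col2 K iF ((Finset.range K).image f) ⟨al, halK⟩ := by
        rw [e2]
        refine ⟨hyc, ?_⟩
        rw [img_emb K y hym hyc ⟨al, halK⟩]
        exact hal2
      obtain ⟨h6, h7⟩ := h5
      rw [img_emb K f hf h6 ⟨al, halK⟩] at h7
      exact h7.symm
    · ext z
      simp only [Finset.mem_image, Finset.mem_filter, Finset.mem_range]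
      constructor
      · intro hz
        obtain ⟨q, hq, rfl⟩ := Finset.mem_image.1 ((h _ hfI hfc).2.1 hz)
        have hqK := Finset.mem_range.1 hq
        refine ⟨q, ⟨hqK, ?_⟩, rfl⟩
        have h5 : col3 K AF ((Finset.range K).image y) ⟨q, hqK⟩ := by
          rw [← e3]
          refine ⟨hfc, ?_⟩
          rw [img_emb K f hf hfc ⟨q, hqK⟩]
          exact hz
        obtain ⟨h6, h7⟩ := h5
        rw [img_emb K y hym h6 ⟨q, hqK⟩] at h7
        exact h7
      · rintro ⟨q, ⟨hqK, hq⟩, rfl⟩
        have h5 : col3 K AF ((Finset.range K).image f) ⟨q, hqK⟩ := by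
          rw [e3]
          refine ⟨hyc, ?_⟩
          rw [img_emb K y hym hyc ⟨q, hqK⟩]
          exact hq
        obtain ⟨h6, h7⟩ := h5
        rw [img_emb K f hf h6 ⟨q, hqK⟩] at h7
        exact h7

/-! ### Placement -/

/-- the location of the `p`-th element -/
def loc (lo hi E W n : ℕ) (B : Finset ℕ) (u v e p : ℕ) : ℕ :=
  if p < lo then p * E + (if p ∈ B then 0 else 1 + e)
  else if p = lo then (1 + u) * W
  else if p < hi then (1 + u) * W + (p - lo) * E + (1 + e)
  else if p = hi then (1 + v) * W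
  else (n + 2) * W + p * E + (if p ∈ B then 0 else 1 + e)

section placement

variable {lo hi E W n K : ℕ} {B : Finset ℕ} {u v e : ℕ}

lemma mul_step {a b c : ℕ} (h : a < b) : a * c + c ≤ b * c := by
  have := Nat.mul_le_mul_right c (Nat.succ_le_of_lt h)
  rw [Nat.succ_mul] at this
  exact this

lemma loc_mono (hlh : lo < hi) (hhK : hi < K) (hW : W = (K + 1) * E) (he : 1 + e < E)
    (huv : u < v) (hvn : v < n) (p p' : ℕ) (hpp : p < p') (hp' : p' < K) :
    loc lo hi E W n B u v e p < loc lo hi E W n B u v e p' := by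
  have hW2 : W = K * E + E := by rw [hW, Nat.succ_mul]
  have a1 : p * E + E ≤ p' * E := mul_step hpp
  have a2 : p' * E + E ≤ K * E := mul_step hp'
  have a3 : (1 + u) * W + W ≤ (1 + v) * W := mul_step (by omega)
  have a4 : (1 + v) * W + W ≤ (n + 2) * W := mul_step (by omega)
  have a5 : 0 * W + W ≤ (1 + u) * W := mul_step (by omega)
  have a6 : lo < p → (p - lo) * E + E ≤ (p' - lo) * E := fun h => mul_step (by omega)
  have a7 : (p - lo) * E + E ≤ K * E := mul_step (by omega)
  have a8 : (p' - lo) * E + E ≤ K * E := mul_step (by omega)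
  have a9 : lo < p' → 0 * E + E ≤ (p' - lo) * E := fun h => mul_step (by omega)
  have a10 : (1 + u) * W ≤ (1 + v) * W := Nat.mul_le_mul_right _ (by omega)
  unfold loc
  split_ifs <;> omega

lemma loc_lt (hlh : lo < hi) (hhK : hi < K) (hW : W = (K + 1) * E) (he : 1 + e < E)
    (huv : u < v) (hvn : v < n) (p : ℕ) (hp : p < K) :
    loc lo hi E W n B u v e p < (n + 3) * W := by
  have hW2 : W = K * E + E := by rw [hW, Nat.succ_mul]
  have a2 : p * E + E ≤ K * E := mul_step hp
  have a3 : (1 + u) * W + W ≤ (1 + v) * W := mul_step (by omega)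
  have a4 : (1 + v) * W + W ≤ (n + 2) * W := mul_step (by omega)
  have a5 : (n + 2) * W + W ≤ (n + 3) * W := mul_step (by omega)
  have a7 : (p - lo) * E + E ≤ K * E := mul_step (by omega)
  unfold loc
  split_ifs <;> omega

lemma loc_form (hlh : lo < hi) (hB : ∀ p ∈ B, p < lo ∨ hi < p) (hW : W = (K + 1) * E) (p : ℕ) :
    ∃ t, loc lo hi E W n B u v e p = t * E + (if p ∈ B ∨ p = lo ∨ p = hi then 0 else 1 + e) := by
  have hWt : ∀ s, s * W = (s * (K + 1)) * E := by
    intro s
    rw [hW, mul_assoc]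
  unfold loc
  by_cases h1 : p < lo
  · rw [if_pos h1]
    by_cases h2 : p ∈ B
    · rw [if_pos h2, if_pos (Or.inl h2)]
      exact ⟨p, rfl⟩
    · have h4 : ¬ (p ∈ B ∨ p = lo ∨ p = hi) := by
        rintro (h | h | h)
        · exact h2 h
        · omega
        · omega
      rw [if_neg h2, if_neg h4]
      exact ⟨p, rfl⟩
  · rw [if_neg h1]
    by_cases h2 : p = lo
    · rw [if_pos h2, if_pos (Or.inr (Or.inl h2))]
      exact ⟨(1 + u) * (K + 1), hWt _⟩
    · rw [if_neg h2]
      by_cases h3 : p < hi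
      · have h4 : ¬ (p ∈ B ∨ p = lo ∨ p = hi) := by
          rintro (h | h | h)
          · have := hB p h
            omega
          · omega
          · omega
        rw [if_pos h3, if_neg h4]
        refine ⟨(1 + u) * (K + 1) + (p - lo), ?_⟩
        rw [hWt]
        ring
      · rw [if_neg h3]
        by_cases h5 : p = hi
        · rw [if_pos h5, if_pos (Or.inr (Or.inr h5))]
          exact ⟨(1 + v) * (K + 1), hWt _⟩
        · rw [if_neg h5]
          by_cases h6 : p ∈ B
          · rw [if_pos h6, if_pos (Or.inl h6)]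
            refine ⟨(n + 2) * (K + 1) + p, ?_⟩
            rw [hWt]
            ring
          · have h4 : ¬ (p ∈ B ∨ p = lo ∨ p = hi) := by
              rintro (h | h | h)
              · exact h6 h
              · omega
              · omega
            rw [if_neg h6, if_neg h4]
            refine ⟨(n + 2) * (K + 1) + p, ?_⟩
            rw [hWt]
            ring

lemma loc_lo (hlh : lo < hi) : loc lo hi E W n B u v e lo = (1 + u) * W := by
  unfold loc
  rw [if_neg (lt_irrefl _), if_pos rfl]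

lemma loc_hi (hlh : lo < hi) : loc lo hi E W n B u v e hi = (1 + v) * W := by
  unfold loc
  rw [if_neg (by omega), if_neg (by omega), if_neg (lt_irrefl _), if_pos rfl]

/-- locations of the fixed elements -/
def zl (lo E W n p : ℕ) : ℕ := if p < lo then p * E else (n + 2) * W + p * E

lemma loc_B (hlh : lo < hi) (hB : ∀ p ∈ B, p < lo ∨ hi < p) (p : ℕ) (hp : p ∈ B) :
    loc lo hi E W n B u v e p = zl lo E W n p := by
  unfold loc zl
  rcases hB p hp with h | h
  · rw [if_pos h, if_pos h, if_pos hp, add_zero]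
  · have c1 : ¬ p < lo := by omega
    have c2 : ¬ p = lo := by omega
    have c3 : ¬ p < hi := by omega
    have c4 : ¬ p = hi := by omega
    rw [if_neg c1, if_neg c2, if_neg c3, if_neg c4, if_pos hp, add_zero, if_neg c1]

lemma zl_mono (hE : 0 < E) (p p' : ℕ) (hpp : p < p') : zl lo E W n p < zl lo E W n p' := by
  have a1 : p * E + E ≤ p' * E := mul_step hpp
  unfold zl
  split_ifs <;> omega

lemma zl_ne (hE : 0 < E) (hW : W = (K + 1) * E) (hloK : lo < K) (d p : ℕ) (hd : d < n)
    (hp : p < K) : (1 + d) * W ≠ zl lo E W n p := by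
  have hW2 : W = K * E + E := by rw [hW, Nat.succ_mul]
  have a2 : p * E + E ≤ K * E := mul_step hp
  have a4 : (1 + d) * W + W ≤ (n + 2) * W := mul_step (by omega)
  have a5 : 0 * W + W ≤ (1 + d) * W := mul_step (by omega)
  unfold zl
  split_ifs <;> omega

lemma zl_lt (hE : 0 < E) (hW : W = (K + 1) * E) (p : ℕ)
    (hp : p < K) : zl lo E W n p < (n + 3) * W := by
  have hW2 : W = K * E + E := by rw [hW, Nat.succ_mul]
  have a2 : p * E + E ≤ K * E := mul_step hp
  have a5 : (n + 2) * W + W ≤ (n + 3) * W := mul_step (by omega)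
  unfold zl
  split_ifs <;> omega

end placement

lemma form_cmp {E t t' r r' : ℕ} (hr : r < E) (hr' : r' < E) (h : t * E + r = t' * E + r') :
    r = r' := by
  have h1 : (t * E + r) % E = (t' * E + r') % E := by rw [h]
  rw [Nat.mul_add_mod_of_lt hr, Nat.mul_add_mod_of_lt hr'] at h1
  exact h1

/-- the placement -/
lemma placement (K n lo hi al be : ℕ) (B : Finset ℕ) (hlh : lo < hi) (hhK : hi < K)
    (hB : ∀ p ∈ B, p < K ∧ (p < lo ∨ hi < p)) (dd : ℕ → ℕ) (hdd : ∀ d, d < n → dd d < n)
    (hinj : ∀ d d', d < n → d' < n → dd d = dd d' → d = d') (uu vv : ℕ → ℕ → ℕ)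
    (huv : ∀ a b, a < b → b < n → uu a b < vv a b ∧ vv a b < n)
    (hor : (lo = al ∧ hi = be ∧ ∀ a b, uu a b = dd a ∧ vv a b = dd b) ∨
      (lo = be ∧ hi = al ∧ ∀ a b, uu a b = dd b ∧ vv a b = dd a)) :
    ∃ (lam : ℕ → ℕ) (z : ℕ → ℕ) (G : ℕ → ℕ → ℕ → ℕ),
      (∀ d, d < n → lam d < (n + 3) * ((K + 1) * (n * n + 2))) ∧
      (∀ d d', d < n → d' < n → lam d = lam d' → d = d') ∧
      (∀ p ∈ B, z p < (n + 3) * ((K + 1) * (n * n + 2))) ∧
      (∀ p p', p < p' → z p < z p') ∧
      (∀ d, d < n → ∀ p ∈ B, lam d ≠ z p) ∧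
      ∀ a b, a < b → b < n → (∀ p p', p < p' → p' < K → G a b p < G a b p') ∧
        (∀ p, p < K → G a b p < (n + 3) * ((K + 1) * (n * n + 2))) ∧ G a b al = lam a ∧
        G a b be = lam b ∧ (∀ p ∈ B, G a b p = z p) ∧
        (∀ p, p < K → ∀ d, d < n → G a b p = lam d → d = a ∨ d = b) ∧
        ∀ a' b', a' < b' → b' < n → (a, b) ≠ (a', b') → ∀ p p', p < K → p' < K →
          G a b p = G a' b' p' → p ∈ B ∨ p = al ∨ p = be := by
  set E := n * n + 2 with hEdef
  set W := (K + 1) * E with hWdef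
  have hE : 0 < E := by omega
  have hB' : ∀ p ∈ B, p < lo ∨ hi < p := fun p hp => (hB p hp).2
  have hcode : ∀ a b, a < n → b < n → 1 + (a * n + b) < E := by
    intro a b ha hb
    have := mul_step (c := n) ha
    omega
  have hWpos : 0 < W := by rw [hWdef]; positivity
  refine ⟨fun d => (1 + dd d) * W, zl lo E W n,
    fun a b => loc lo hi E W n B (uu a b) (vv a b) (a * n + b), ?_, ?_, ?_, ?_, ?_, ?_⟩
  · intro d hd
    exact Nat.mul_lt_mul_of_pos_right (by have := hdd d hd; omega) hWpos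
  · intro d d' hd hd' h
    apply hinj d d' hd hd'
    have := Nat.eq_of_mul_eq_mul_right hWpos h
    omega
  · intro p hp
    exact zl_lt hE hWdef p (hB p hp).1
  · intro p p' hpp
    exact zl_mono hE p p' hpp
  · intro d hd p hp
    exact zl_ne hE hWdef (by omega) (dd d) p (hdd d hd) (hB p hp).1
  · intro a b hab hbn
    have hc := hcode a b (by omega) hbn
    obtain ⟨h1, h2⟩ := huv a b hab hbn
    have hval : ∀ q, (q = al ∨ q = be) → ∃ x, (x = a ∨ x = b) ∧
        loc lo hi E W n B (uu a b) (vv a b) (a * n + b) q = (1 + dd x) * W := by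
      intro q hq
      rcases hor with ⟨e1, e2, e3⟩ | ⟨e1, e2, e3⟩
      · rcases hq with rfl | rfl
        · refine ⟨a, Or.inl rfl, ?_⟩
          rw [← e1, loc_lo hlh, (e3 a b).1]
        · refine ⟨b, Or.inr rfl, ?_⟩
          rw [← e2, loc_hi hlh, (e3 a b).2]
      · rcases hq with rfl | rfl
        · refine ⟨a, Or.inl rfl, ?_⟩
          rw [← e2, loc_hi hlh, (e3 a b).2]
        · refine ⟨b, Or.inr rfl, ?_⟩
          rw [← e1, loc_lo hlh, (e3 a b).1]
    have hlh2 : ∀ q, (q = lo ∨ q = hi) ↔ (q = al ∨ q = be) := by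
      intro q
      rcases hor with ⟨e1, e2, -⟩ | ⟨e1, e2, -⟩
      · rw [e1, e2]
      · rw [e1, e2, or_comm]
    refine ⟨?_, ?_, ?_, ?_, ?_, ?_, ?_⟩
    · intro p p' hpp hp'
      exact loc_mono hlh hhK hWdef hc h1 h2 p p' hpp hp'
    · intro p hp
      exact loc_lt hlh hhK hWdef hc h1 h2 p hp
    · rcases hor with ⟨e1, e2, e3⟩ | ⟨e1, e2, e3⟩
      · change loc lo hi E W n B (uu a b) (vv a b) (a * n + b) al = (1 + dd a) * W
        rw [← e1, loc_lo hlh, (e3 a b).1]
      · change loc lo hi E W n B (uu a b) (vv a b) (a * n + b) al = (1 + dd a) * W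
        rw [← e2, loc_hi hlh, (e3 a b).2]
    · rcases hor with ⟨e1, e2, e3⟩ | ⟨e1, e2, e3⟩
      · change loc lo hi E W n B (uu a b) (vv a b) (a * n + b) be = (1 + dd b) * W
        rw [← e2, loc_hi hlh, (e3 a b).2]
      · change loc lo hi E W n B (uu a b) (vv a b) (a * n + b) be = (1 + dd b) * W
        rw [← e1, loc_lo hlh, (e3 a b).1]
    · intro p hp
      exact loc_B hlh hB' p hp
    · intro p hp d hd h
      change loc lo hi E W n B (uu a b) (vv a b) (a * n + b) p = (1 + dd d) * W at h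
      obtain ⟨t, ht⟩ := loc_form (E := E) (W := W) (n := n) (u := uu a b) (v := vv a b)
        (e := a * n + b) hlh hB' hWdef p
      by_cases h3 : p ∈ B ∨ p = lo ∨ p = hi
      · rcases h3 with h3 | h3
        · exfalso
          rw [loc_B hlh hB' p h3] at h
          exact zl_ne hE hWdef (by omega) (dd d) p (hdd d hd) hp h.symm
        · obtain ⟨x, hx, hx2⟩ := hval p ((hlh2 p).1 h3)
          rw [hx2] at h
          have h5 := Nat.eq_of_mul_eq_mul_right hWpos h
          have h6 : x = d := by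
            apply hinj x d _ hd (by omega)
            rcases hx with rfl | rfl <;> omega
          rw [← h6]
          exact hx
      · exfalso
        rw [if_neg h3] at ht
        rw [ht, hWdef, ← mul_assoc] at h
        have h5 := form_cmp (t := t) (t' := (1 + dd d) * (K + 1)) (r' := 0) hc hE
          (by rw [h, add_zero])
        omega
    · intro a' b' hab' hbn' hne p p' hp hp' h
      change loc lo hi E W n B (uu a b) (vv a b) (a * n + b) p =
        loc lo hi E W n B (uu a' b') (vv a' b') (a' * n + b') p' at h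
      by_contra hcon
      have hcon2 : ¬ (p ∈ B ∨ p = lo ∨ p = hi) := by
        rintro (h3 | h3)
        · exact hcon (Or.inl h3)
        · exact hcon (Or.inr ((hlh2 p).1 h3))
      have hc' := hcode a' b' (by omega) hbn'
      obtain ⟨t, ht⟩ := loc_form (E := E) (W := W) (n := n) (u := uu a b) (v := vv a b)
        (e := a * n + b) hlh hB' hWdef p
      obtain ⟨t', ht'⟩ := loc_form (E := E) (W := W) (n := n) (u := uu a' b') (v := vv a' b')
        (e := a' * n + b') hlh hB' hWdef p'
      rw [if_neg hcon2] at ht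
      rw [ht, ht'] at h
      have h5 := form_cmp hc (by split_ifs <;> omega) h
      split_ifs at h5
      · omega
      · apply hne
        have h6 : a * n + b = a' * n + b' := by omega
        have hn : 0 < n := by omega
        have hb1 : b = b' := form_cmp hbn hbn' h6
        have ha1 : a * n = a' * n := by omega
        rw [Nat.eq_of_mul_eq_mul_right hn ha1, hb1]

/-! ### The module -/

/-- the part of the argument after the choice of `Y` -/
lemma build (K m n al be : ℕ) (B : Finset ℕ) (iF : Finset ℕ → ℕ) (AF : Finset ℕ → Finset ℕ)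
    (Y : Finset ℕ) (hY : (n + 3) * ((K + 1) * (n * n + 2)) = Y.card)
    (halK : al < K) (halB : al ∉ B) (hBK : ∀ p ∈ B, p < K) (hBm : B.card = m)
    (hbe : be ∈ B) (hbet : ∀ p ∈ B, ¬ (al < p ∧ p < be) ∧ ¬ (be < p ∧ p < al))
    (hf : ∀ f : ℕ → ℕ, (∀ p p', p < p' → p' < K → f p < f p') → (∀ p, p < K → f p ∈ Y) →
        iF ((Finset.range K).image f) = f al ∧ AF ((Finset.range K).image f) = B.image f) :
      ∃ (l : ℕ → ℕ) (B0 : Finset ℕ) (Fab : ℕ → ℕ → Finset ℕ),
        (∀ a, a < n → l a ∈ Y ∧ l a ∉ B0) ∧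
        (∀ a b, a < n → b < n → l a = l b → a = b) ∧
        B0 ⊆ Y ∧ B0.card + 1 = m ∧
        ∀ a b, a < b → b < n → Fab a b ⊆ Y ∧ (Fab a b).card = K ∧ iF (Fab a b) = l a ∧
          AF (Fab a b) = insert (l b) B0 ∧ (∀ d, d < n → l d ∈ Fab a b → d = a ∨ d = b) ∧
          ∀ a' b', a' < b' → b' < n → (a, b) ≠ (a', b') →
            ∀ x, x ∈ Fab a b → x ∈ Fab a' b' → x ∈ B0 ∨ ∃ d, d < n ∧ x = l d := by
  classical
  obtain ⟨y, hy1, hy2⟩ := exists_enum Y
  rw [← hY] at hy1 hy2
  have hyinj : ∀ i i', i < (n + 3) * ((K + 1) * (n * n + 2)) →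
      i' < (n + 3) * ((K + 1) * (n * n + 2)) → y i = y i' → i = i' := by
    intro i i' h h' he
    rcases lt_trichotomy i i' with h1 | h1 | h1
    · have := hy2 _ _ h1 h'
      omega
    · exact h1
    · have := hy2 _ _ h1 h
      omega
  have hne : al ≠ be := fun h => halB (h ▸ hbe)
  have hbeK : be < K := hBK be hbe
  have hB' : ∀ p ∈ B.erase be, p < K ∧ (p < min al be ∨ max al be < p) := by
    intro p hp
    have hpB := Finset.mem_of_mem_erase hp
    have hpb : p ≠ be := Finset.ne_of_mem_erase hp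
    have hpa : p ≠ al := fun h => halB (h ▸ hpB)
    refine ⟨hBK p hpB, ?_⟩
    obtain ⟨h1, h2⟩ := hbet p hpB
    omega
  have hex : ∃ (dd : ℕ → ℕ) (uu vv : ℕ → ℕ → ℕ), (∀ d, d < n → dd d < n) ∧
      (∀ d d', d < n → d' < n → dd d = dd d' → d = d') ∧
      (∀ a b, a < b → b < n → uu a b < vv a b ∧ vv a b < n) ∧
      ((min al be = al ∧ max al be = be ∧ ∀ a b, uu a b = dd a ∧ vv a b = dd b) ∨
      (min al be = be ∧ max al be = al ∧ ∀ a b, uu a b = dd b ∧ vv a b = dd a)) := by
    rcases lt_or_gt_of_ne hne with h | h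
    · exact ⟨fun d => d, fun a _ => a, fun _ b => b, fun d hd => hd, fun d d' _ _ h => h,
        fun a b h1 h2 => ⟨h1, h2⟩, Or.inl ⟨by omega, by omega, fun a b => ⟨rfl, rfl⟩⟩⟩
    · refine ⟨fun d => n - 1 - d, fun _ b => n - 1 - b, fun a _ => n - 1 - a, ?_, ?_, ?_,
        Or.inr ⟨by omega, by omega, fun a b => ⟨rfl, rfl⟩⟩⟩
      · intro d hd
        change n - 1 - d < n
        omega
      · intro d d' hd hd' he
        change n - 1 - d = n - 1 - d' at he
        omega
      · intro a b hab hb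
        change n - 1 - b < n - 1 - a ∧ n - 1 - a < n
        omega
  obtain ⟨dd, uu, vv, hdd, hddi, huv, hor⟩ := hex
  obtain ⟨lam, z, G, p1, p2, p3, p4, p5, p6⟩ := placement K n (min al be) (max al be) al be
    (B.erase be) (by omega) (by omega) hB' dd hdd hddi uu vv huv hor
  refine ⟨fun d => y (lam d), (B.erase be).image (fun p => y (z p)),
    fun a b => (Finset.range K).image (fun p => y (G a b p)), ?_, ?_, ?_, ?_, ?_⟩
  · intro a ha
    refine ⟨hy1 _ (p1 a ha), ?_⟩
    intro h
    obtain ⟨p, hp, hpe⟩ := Finset.mem_image.1 h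
    exact p5 a ha p hp (hyinj _ _ (p1 a ha) (p3 p hp) hpe.symm)
  · intro a b ha hb h
    exact p2 a b ha hb (hyinj _ _ (p1 a ha) (p1 b hb) h)
  · intro x hx
    obtain ⟨p, hp, rfl⟩ := Finset.mem_image.1 hx
    exact hy1 _ (p3 p hp)
  · rw [Finset.card_image_of_injOn, Finset.card_erase_of_mem hbe, hBm]
    · have : 0 < B.card := Finset.card_pos.2 ⟨be, hbe⟩
      omega
    · intro p hp p' hp' h
      have h1 := hyinj _ _ (p3 p hp) (p3 p' hp') h
      rcases lt_trichotomy p p' with h2 | h2 | h2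
      · have := p4 _ _ h2
        omega
      · exact h2
      · have := p4 _ _ h2
        omega
  · intro a b hab hb
    obtain ⟨q1, q2, q3, q4, q5, q6, q7⟩ := p6 a b hab hb
    have hm : ∀ p p', p < p' → p' < K → y (G a b p) < y (G a b p') :=
      fun p p' h1 h2 => hy2 _ _ (q1 p p' h1 h2) (q2 p' h2)
    have hGY : ∀ p, p < K → y (G a b p) ∈ Y := fun p hp => hy1 _ (q2 p hp)
    obtain ⟨r1, r2⟩ := hf (fun p => y (G a b p)) hm hGY
    refine ⟨?_, ?_, ?_, ?_, ?_, ?_⟩
    · intro x hx
      obtain ⟨p, hp, rfl⟩ := Finset.mem_image.1 hx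
      exact hGY p (Finset.mem_range.1 hp)
    · exact img_card K _ hm
    · rw [r1, q3]
    · rw [r2]
      ext x
      rw [Finset.mem_insert, Finset.mem_image, Finset.mem_image]
      constructor
      · rintro ⟨p, hp, rfl⟩
        by_cases hpb : p = be
        · left
          rw [hpb, q4]
        · right
          exact ⟨p, Finset.mem_erase.2 ⟨hpb, hp⟩, by rw [q5 p (Finset.mem_erase.2 ⟨hpb, hp⟩)]⟩
      · rintro (rfl | ⟨p, hp, rfl⟩)
        · exact ⟨be, hbe, by rw [q4]⟩
        · exact ⟨p, Finset.mem_of_mem_erase hp, by rw [q5 p hp]⟩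
    · intro d hd h
      obtain ⟨p, hp, hpe⟩ := Finset.mem_image.1 h
      have hpK := Finset.mem_range.1 hp
      exact q6 p hpK d hd (hyinj _ _ (q2 p hpK) (p1 d hd) hpe)
    · intro a' b' hab' hb' hne' x hx hx'
      obtain ⟨p, hp, rfl⟩ := Finset.mem_image.1 hx
      obtain ⟨p', hp', hpe⟩ := Finset.mem_image.1 hx'
      have hpK := Finset.mem_range.1 hp
      have hpK' := Finset.mem_range.1 hp'
      obtain ⟨-, q2', -⟩ := p6 a' b' hab' hb'
      have h1 := hyinj _ _ (q2' p' hpK') (q2 p hpK) hpe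
      rcases q7 a' b' hab' hb' hne' p p' hpK hpK' h1.symm with h2 | h2 | h2
      · left
        exact Finset.mem_image.2 ⟨p, h2, by rw [q5 p h2]⟩
      · right
        exact ⟨a, by omega, by rw [h2, q3]⟩
      · right
        exact ⟨b, by omega, by rw [h2, q4]⟩

/-- COMB, (4.4) -/
theorem comb (ram : RamStatement) : CombStatement := by
  classical
  intro K m c n hm
  obtain ⟨N, hN⟩ := ram ((Fin (K + 1) → Prop) × (Fin K → Prop) × (Fin K → Prop))
    ((n + 3) * ((K + 1) * (n * n + 2)) + (K + c + 1))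
  refine ⟨N, ?_⟩
  intro I hI iF AF V hV
  obtain ⟨Y0, hYI, hYc, hcol⟩ := hN (fun G => (col1 K V G, col2 K iF G, col3 K AF G)) I hI
  have hfree := free_set K c V Y0 (by omega) (fun F hF hFc => (hV F (hF.trans hYI) hFc).2.2.2.2)
    (fun G G' h1 h2 h3 => congrArg Prod.fst (hcol G G' h1 h2 h3))
  obtain ⟨Y, hYY, hYc2⟩ := Finset.exists_subset_card_eq
    (show (n + 3) * ((K + 1) * (n * n + 2)) ≤ Y0.card by omega)
  have hKY : K ≤ Y.card := by
    rw [hYc2]
    have h1 : 1 * ((K + 1) * 1) ≤ (n + 3) * ((K + 1) * (n * n + 2)) :=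
      Nat.mul_le_mul (by omega) (Nat.mul_le_mul_left _ (by omega))
    omega
  obtain ⟨al, B, halK, halB, hBK, hBm, hf⟩ := positions K m iF AF Y hKY
    (fun F hF hFc => by
      obtain ⟨h1, h2, h3, h4, -⟩ := hV F ((hF.trans hYY).trans hYI) hFc
      exact ⟨h1, h2, h3, h4⟩)
    (fun G G' h1 h2 h3 => congrArg (fun x => x.2.1)
      (hcol G G' (h1.trans hYY) (h2.trans hYY) h3))
    (fun G G' h1 h2 h3 => congrArg (fun x => x.2.2)
      (hcol G G' (h1.trans hYY) (h2.trans hYY) h3))
  have hBne : B.Nonempty := Finset.card_pos.1 (by omega)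
  obtain ⟨be, hbe, hmin⟩ := Finset.exists_min_image B
    (fun p => (p - al) + (al - p)) hBne
  have hbet : ∀ p ∈ B, ¬ (al < p ∧ p < be) ∧ ¬ (be < p ∧ p < al) := by
    intro p hp
    have := hmin p hp
    omega
  obtain ⟨l, B0, Fab, g1, g2, g3, g4, g5⟩ := build K m n al be B iF AF Y hYc2.symm halK halB hBK
    hBm hbe hbet hf
  refine ⟨Y, (hYY.trans hYI), ?_, l, B0, Fab, g1, g2, g3, g4, g5⟩
  intro F hF hFc x hx hxY
  exact hfree F (hF.trans hYY) hFc x hx (hYY hxY)

end Pool.Agent.Lib.MP_257afc_co.ZO.H47
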